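import Pool.Agent.Q98.SPN.Stm

/-!
# Package LOGC of project GSP
-/

set_option autoImplicit false

namespace Pool.Agent.U933.GSP.LOGC

open Pool.Agent.Q98.SPN

lemma e400 : (400 : ℝ) ≤ Real.exp 6 := by
  have h := Real.exp_one_gt_d9
  have h1 : Real.exp 6 = Real.exp 1 ^ 6 := by
    rw [← Real.exp_nat_mul]; norm_num
  rw [h1]
  calc (400 : ℝ) ≤ 2.7182818283 ^ 6 := by norm_num
    _ ≤ Real.exp 1 ^ 6 := pow_le_pow_left₀ (by norm_num) h.le 6

lemma e2 : (2 : ℝ) ≤ Real.exp 0.7 := by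
  have h := Real.log_two_lt_d9
  calc (2 : ℝ) = Real.exp (Real.log 2) := (Real.exp_log (by norm_num)).symm
    _ ≤ Real.exp 0.7 := Real.exp_le_exp.2 (by linarith)

lemma e5 : (5 : ℝ) ≤ Real.exp 1.61 := by
  have h := Real.exp_one_gt_d9
  have h1 : Real.exp 1.61 ^ 10 = Real.exp 1 ^ 16 * Real.exp 0.1 := by
    rw [← Real.exp_nat_mul, ← Real.exp_nat_mul, ← Real.exp_add]; norm_num
  have h2 : (1.105 : ℝ) ≤ Real.exp 0.1 := by
    have := Real.quadratic_le_exp_of_nonneg (show (0 : ℝ) ≤ 0.1 by norm_num)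
    norm_num at this ⊢
    linarith
  have h3 : (5 : ℝ) ^ 10 ≤ Real.exp 1.61 ^ 10 := by
    rw [h1]
    calc (5 : ℝ) ^ 10 ≤ 2.7182818283 ^ 16 * 1.105 := by norm_num
      _ ≤ Real.exp 1 ^ 16 * Real.exp 0.1 :=
        mul_le_mul (pow_le_pow_left₀ (by norm_num) h.le 16) h2 (by norm_num) (by positivity)
  exact le_of_pow_le_pow_left₀ (by norm_num) (Real.exp_pos _).le h3

theorem t_LOGC : S_LOGC := by
  intro m κ k c B hc hcm hB h
  obtain ⟨q, hq⟩ : ∃ q, q = qq m κ k := ⟨_, rfl⟩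
  rw [← hq] at h
  have hqle : (q : ℝ) ≤ 2 * (m : ℝ) / (16 ^ k * 100 ^ κ) := by
    rw [hq]
    exact Nat.floor_le (by positivity)
  have hz : 0 < zz κ k := by unfold zz; positivity
  have hzinv : (zz κ k)⁻¹ ≤ Real.exp (6 + 0.7 * k + κ) := by
    unfold zz
    rw [one_div, inv_inv, Real.exp_add, Real.exp_add]
    refine mul_le_mul (mul_le_mul e400 ?_ (by positivity) (by positivity)) le_rfl
      (by positivity) (by positivity)
    have : Real.exp (0.7 * k) = Real.exp 0.7 ^ k := by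
      rw [← Real.exp_nat_mul]; ring_nf
    rw [this]
    exact pow_le_pow_left₀ (by norm_num) e2 k
  have hexp : 2 * zz κ k * c ≤ m / (200 * 2 ^ k) := by
    calc 2 * zz κ k * c ≤ 2 * zz κ k * (m * Real.exp κ) :=
          mul_le_mul_of_nonneg_left hcm (by positivity)
      _ = m / (200 * 2 ^ k) := by
          unfold zz
          have : Real.exp (κ : ℝ) ≠ 0 := (Real.exp_pos _).ne'
          field_simp
          ring
  have h5 : (5 : ℝ) ^ (2 * (4 * k + 5) * q) ≤ Real.exp (q * (16.1 + 12.88 * k)) := by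
    calc (5 : ℝ) ^ (2 * (4 * k + 5) * q) ≤ Real.exp 1.61 ^ (2 * (4 * k + 5) * q) :=
          pow_le_pow_left₀ (by norm_num) e5 _
      _ = Real.exp (q * (16.1 + 12.88 * k)) := by
          rw [← Real.exp_nat_mul]
          congr 1
          push_cast
          ring
  have h6 : B ≤ Real.exp (2 * zz κ k * c) * 5 ^ (2 * (4 * k + 5) * q) * (zz κ k)⁻¹ ^ q := by
    have hzq : 0 < zz κ k ^ q := by positivity
    rw [inv_pow, ← div_eq_mul_inv, le_div_iff₀ hzq]
    exact h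
  have h7 : (zz κ k)⁻¹ ^ q ≤ Real.exp (q * (6 + 0.7 * k + κ)) := by
    rw [Real.exp_nat_mul]
    exact pow_le_pow_left₀ (by positivity) hzinv q
  calc B ≤ Real.exp (2 * zz κ k * c) * 5 ^ (2 * (4 * k + 5) * q) * (zz κ k)⁻¹ ^ q := h6
    _ ≤ Real.exp (m / (200 * 2 ^ k)) * Real.exp (q * (16.1 + 12.88 * k)) *
        Real.exp (q * (6 + 0.7 * k + κ)) :=
      mul_le_mul (mul_le_mul (Real.exp_le_exp.2 hexp) h5 (by positivity) (by positivity)) h7
        (by positivity) (by positivity)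
    _ = Real.exp (m / (200 * 2 ^ k) + q * (22.1 + 13.58 * k + κ)) := by
      rw [← Real.exp_add, ← Real.exp_add]
      congr 1
      ring
    _ ≤ Real.exp (m / (200 * 2 ^ k) + m / 16 ^ k * (2 * (22.1 + 13.6 * k + κ) / 100 ^ κ)) := by
      apply Real.exp_le_exp.2
      have hk : (0 : ℝ) ≤ k := Nat.cast_nonneg k
      have hκ : (0 : ℝ) ≤ κ := Nat.cast_nonneg κ
      have h8 : (q : ℝ) * (22.1 + 13.58 * k + κ) ≤
          2 * (m : ℝ) / (16 ^ k * 100 ^ κ) * (22.1 + 13.6 * k + κ) :=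
        mul_le_mul hqle (by linarith) (by positivity) (by positivity)
      have h9 : 2 * (m : ℝ) / (16 ^ k * 100 ^ κ) * (22.1 + 13.6 * k + κ) =
          m / 16 ^ k * (2 * (22.1 + 13.6 * k + κ) / 100 ^ κ) := by
        field_simp
      linarith

end Pool.Agent.U933.GSP.LOGC
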