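import Pool.Agent.Q98.SPN.Stm

/-!
# Package MAINP of project GSP
-/

set_option autoImplicit false

open scoped Matrix.Norms.L2Operator Matrix
open Finset

namespace Pool.Agent.U933.GSP.MAINP

open Pool.Agent.Q98.SPN

lemma sc_le {m κ : ℕ} {g : ℝ} (h : κ * (m : ℝ) ≤ 2 * g) (hg : 0 ≤ g) :
    3 * sc m κ ≤ 170 * Real.sqrt g := by
  have he := Real.exp_one_lt_d9
  have he0 := Real.exp_pos 1
  have h2 : Real.exp 2 = Real.exp 1 ^ 2 := by
    rw [← Real.exp_nat_mul]; norm_num
  have h3 : sc m κ ≤ 20 * Real.exp 1 * Real.sqrt g := by
    unfold sc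
    apply Real.sqrt_le_iff.2
    refine ⟨by positivity, ?_⟩
    have h4 : Real.sqrt g ^ 2 = g := Real.sq_sqrt hg
    calc 200 * Real.exp 2 * κ * m = 200 * Real.exp 1 ^ 2 * (κ * m) := by rw [h2]; ring
      _ ≤ 200 * Real.exp 1 ^ 2 * (2 * g) := mul_le_mul_of_nonneg_left h (by positivity)
      _ = (20 * Real.exp 1 * Real.sqrt g) ^ 2 := by
        rw [mul_pow, mul_pow, h4]; ring
  have h5 : 20 * Real.exp 1 * Real.sqrt g ≤ 55 * Real.sqrt g :=
    mul_le_mul_of_nonneg_right (by linarith) (Real.sqrt_nonneg g)
  have h6 := Real.sqrt_nonneg g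
  linarith

theorem t_MAINP : S_PC → S_GF → S_MAINP := by
  intro hPC hGF ι _ _ d N hN hd hsum
  obtain ⟨ga, gb, gc, gd⟩ := hGF N hN
  have key : ∀ n : ℕ, ∀ (J : Type) [Fintype J] [DecidableEq J]
      (A : J → (i : ι) → Matrix (Fin (d i)) (Fin (d i)) ℂ), Fintype.card J = n →
      (∀ g i, ‖A g i‖ ≤ 1) → ∃ ε : J → ℝ, (∀ g, ε g = 1 ∨ ε g = -1) ∧
        ∀ i, ‖∑ g, ((ε g : ℝ) : ℂ) • A g i‖ ≤ 10 ^ 5 * Real.sqrt (gf N (Fintype.card J)) := by
    intro n
    induction n using Nat.strong_induction_on with
    | _ n ih =>
      intro J _ _ A hJ hA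
      by_cases h4 : Fintype.card J < 4
      · refine ⟨fun _ => 1, fun _ => Or.inl rfl, fun i => ?_⟩
        have h1 : ‖∑ g, (((1 : ℝ)) : ℂ) • A g i‖ ≤ Fintype.card J := by
          refine (norm_sum_le _ _).trans ?_
          calc ∑ g, ‖((1 : ℝ) : ℂ) • A g i‖ ≤ ∑ _g : J, (1 : ℝ) := by
                refine Finset.sum_le_sum fun g _ => ?_
                rw [Complex.ofReal_one, one_smul]
                exact hA g i
            _ = Fintype.card J := by simp
        refine h1.trans ?_
        rcases Nat.eq_zero_or_pos (Fintype.card J) with h0 | h0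
        · rw [h0]
          simp only [Nat.cast_zero]
          positivity
        · have hx : (1 : ℝ) ≤ (Fintype.card J : ℝ) := by exact_mod_cast h0
          have hx3 : (Fintype.card J : ℝ) ≤ 3 := by
            have : Fintype.card J ≤ 3 := by omega
            exact_mod_cast this
          have h2 := gc (Fintype.card J : ℝ) (by linarith)
          have h3 : 1 ≤ Real.sqrt (gf N (Fintype.card J)) := by
            rw [Real.one_le_sqrt]
            linarith
          linarith
      · have h4' : 4 ≤ Fintype.card J := not_lt.1 h4
        have hm0 : (0 : ℝ) < (Fintype.card J : ℝ) := by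
          have : 0 < Fintype.card J := by omega
          exact_mod_cast this
        obtain ⟨κ, hκ, hκN, hκm⟩ := gd (Fintype.card J : ℝ) hm0
        obtain ⟨x, hx, hx10, hxn⟩ := hPC ι d κ N hd hsum hκ J A h4' hκN hA
        classical
        have hcard : Fintype.card {g // x g = 0} + (univ.filter fun g => x g ≠ 0).card =
            Fintype.card J := by
          rw [Fintype.card_subtype]
          have := Finset.card_filter_add_card_filter_not (s := (univ : Finset J))
            (fun g => x g = 0)
          rw [Finset.card_univ] at this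
          exact this
        have hcardR : (Fintype.card {g // x g = 0} : ℝ) +
            ((univ.filter fun g => x g ≠ 0).card : ℝ) = (Fintype.card J : ℝ) := by
          exact_mod_cast hcard
        have hle : (Fintype.card {g // x g = 0} : ℝ) ≤ 9 / 10 * (Fintype.card J : ℝ) := by
          linarith
        have hlt : Fintype.card {g // x g = 0} < n := by
          rw [← hJ]
          have : (Fintype.card {g // x g = 0} : ℝ) < (Fintype.card J : ℝ) := by linarith
          exact_mod_cast this
        obtain ⟨ε', hε', hn'⟩ := ih _ hlt {g // x g = 0} (fun g => A g.1) rfl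
          (fun g i => hA g.1 i)
        refine ⟨fun g => if h : x g = 0 then ε' ⟨g, h⟩ else x g, ?_, ?_⟩
        · intro g
          dsimp only
          split_ifs with h
          · exact hε' ⟨g, h⟩
          · rcases hx g with h1 | h1 | h1
            · exact absurd h1 h
            · exact Or.inl h1
            · exact Or.inr h1
        · intro i
          have hsplit : ∑ g, (((if h : x g = 0 then ε' ⟨g, h⟩ else x g : ℝ)) : ℂ) • A g i =
              ∑ g, ((x g : ℝ) : ℂ) • A g i +
                ∑ g : {g // x g = 0}, ((ε' g : ℝ) : ℂ) • A g.1 i := by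
            have h1 : ∑ g : {g // x g = 0}, ((ε' g : ℝ) : ℂ) • A g.1 i =
                ∑ g, if h : x g = 0 then ((ε' ⟨g, h⟩ : ℝ) : ℂ) • A g i else 0 := by
              rw [Finset.sum_dite]
              simp only [Finset.sum_const_zero, add_zero]
              refine Finset.sum_bij (fun g _ => ⟨g.1, by simp [g.2]⟩) ?_ ?_ ?_ ?_
              · intro a _
                exact Finset.mem_attach _ _
              · intro a _ b _ hab
                simpa [Subtype.ext_iff] using hab
              · intro b _
                exact ⟨⟨b.1, (Finset.mem_filter.1 b.2).2⟩, Finset.mem_univ _, rfl⟩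
              · intro a _
                rfl
            rw [h1, ← Finset.sum_add_distrib]
            refine Finset.sum_congr rfl fun g _ => ?_
            by_cases h : x g = 0
            · rw [dif_pos h, dif_pos h, h]
              simp
            · rw [dif_neg h, dif_neg h, add_zero]
          rw [hsplit]
          have hg0 : 0 ≤ gf N (Fintype.card J) := hm0.le.trans (gc _ hm0)
          have hb1 : ‖∑ g, ((x g : ℝ) : ℂ) • A g i‖ ≤
              170 * Real.sqrt (gf N (Fintype.card J)) := (hxn i).trans (sc_le hκm hg0)
          have hb2 : Real.sqrt (gf N (Fintype.card {g // x g = 0})) ≤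
              0.9975 * Real.sqrt (gf N (Fintype.card J)) := by
            rcases Nat.eq_zero_or_pos (Fintype.card {g // x g = 0}) with h0 | h0
            · rw [h0]
              have : gf N ((0 : ℕ) : ℝ) = 0 := by simp [gf]
              rw [this, Real.sqrt_zero]
              positivity
            · have h0' : (0 : ℝ) < (Fintype.card {g // x g = 0} : ℝ) := by exact_mod_cast h0
              apply Real.sqrt_le_iff.2
              refine ⟨by positivity, ?_⟩
              rw [mul_pow, Real.sq_sqrt hg0]
              exact (ga _ _ h0' hle).trans (gb _ hm0)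
          have hb3 := hn' i
          have hb4 := Real.sqrt_nonneg (gf N (Fintype.card J))
          refine (norm_add_le _ _).trans ?_
          nlinarith
  intro J _ _ A hA
  exact key _ J A rfl hA

end Pool.Agent.U933.GSP.MAINP
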